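import Mathlib

set_option autoImplicit false

/-! # Bilinear sums over arbitrary sets of vectors over the field with `P` elements -/

namespace Pool.Agent.D0H59.RG

open Finset Matrix

/-- a linear form as an additive character -/
lemma sum_char_dot (P k : ℕ) [Fact P.Prime] (w : Fin k → ZMod P) (hw : w ≠ 0) :
    ∑ a : Fin k → ZMod P, ZMod.stdAddChar (a ⬝ᵥ w) = 0 := by
  classical
  set L : (Fin k → ZMod P) →+ ZMod P :=
    { toFun := fun a => a ⬝ᵥ w
      map_zero' := zero_dotProduct w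
      map_add' := fun a b => add_dotProduct a b w } with hL
  set ψ : AddChar (Fin k → ZMod P) ℂ := (ZMod.stdAddChar (N := P)).compAddMonoidHom L with hψ
  have h1 : ψ ≠ 0 := by
    intro h0
    obtain ⟨j, hj⟩ := Function.ne_iff.mp hw
    rw [Pi.zero_apply] at hj
    have h2 : ψ (Pi.single j (w j)⁻¹) = 1 := by rw [h0]; rfl
    have h3 : ψ (Pi.single j (w j)⁻¹) = ZMod.stdAddChar (1 : ZMod P) := by
      rw [hψ, AddChar.compAddMonoidHom_apply]
      congr 1
      change (Pi.single j (w j)⁻¹ : Fin k → ZMod P) ⬝ᵥ w = 1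
      rw [single_dotProduct, inv_mul_cancel₀ hj]
    rw [h3, ← (ZMod.stdAddChar (N := P)).map_zero_eq_one] at h2
    have h4 := ZMod.injective_stdAddChar h2
    exact one_ne_zero h4
  have h2 := AddChar.sum_eq_zero_iff_ne_zero.mpr h1
  exact h2

/-- the number of solutions of `M y = 0` -/
lemma card_ker (P k l ρ : ℕ) [Fact P.Prime] (M : Matrix (Fin k) (Fin l) (ZMod P))
    (hρ : ρ ≤ M.rank) :
    (((Finset.univ : Finset (Fin l → ZMod P)).filter (fun y => M *ᵥ y = 0)).card : ℝ) ≤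
      (P : ℝ) ^ ((l : ℝ) - ρ) := by
  classical
  have hP1 : (1 : ℝ) ≤ P := by exact_mod_cast (Fact.out : P.Prime).one_lt.le
  have hP0 : (0 : ℝ) < P := by linarith
  have h1 : ((Finset.univ : Finset (Fin l → ZMod P)).filter (fun y => M *ᵥ y = 0)).card =
      Nat.card (LinearMap.ker M.mulVecLin) := by
    rw [← Nat.card_eq_finsetCard]
    apply Nat.card_congr
    exact Equiv.subtypeEquivRight fun y => by
      rw [Finset.mem_filter, LinearMap.mem_ker, Matrix.mulVecLin_apply]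
      simp
  have h2 : Nat.card (LinearMap.ker M.mulVecLin) =
      P ^ Module.finrank (ZMod P) (LinearMap.ker M.mulVecLin) := by
    rw [Module.natCard_eq_pow_finrank (K := ZMod P), Nat.card_zmod]
  have h3 := LinearMap.finrank_range_add_finrank_ker M.mulVecLin
  rw [Module.finrank_fin_fun] at h3
  have h4 : M.rank = Module.finrank (ZMod P) (LinearMap.range M.mulVecLin) := rfl
  rw [← h4] at h3
  rw [h1, h2]
  push_cast
  rw [← Real.rpow_natCast]
  apply Real.rpow_le_rpow_of_exponent_le hP1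
  have h5 : (M.rank : ℝ) + (Module.finrank (ZMod P) (LinearMap.ker M.mulVecLin) : ℝ) = l := by
    exact_mod_cast h3
  have h6 : (ρ : ℝ) ≤ M.rank := by exact_mod_cast hρ
  linarith

/-- the bilinear inequality -/
theorem bilin (P k l ρ : ℕ) [Fact P.Prime] (M : Matrix (Fin k) (Fin l) (ZMod P))
    (hρ : ρ ≤ M.rank) (A : Finset (Fin k → ZMod P)) (B : Finset (Fin l → ZMod P))
    (u : (Fin k → ZMod P) → ZMod P) (v : (Fin l → ZMod P) → ZMod P) :
    ‖∑ p ∈ A ×ˢ B, ZMod.stdAddChar (p.1 ⬝ᵥ (M *ᵥ p.2) + u p.1 + v p.2)‖ ^ 2 ≤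
      (A.card : ℝ) * B.card * (P : ℝ) ^ ((k : ℝ) + l - ρ) := by
  classical
  have hP1 : (1 : ℝ) ≤ P := by exact_mod_cast (Fact.out : P.Prime).one_lt.le
  have hP0 : (0 : ℝ) < P := by linarith
  set T : (Fin k → ZMod P) → ℝ := fun a =>
    ‖∑ b ∈ B, ZMod.stdAddChar (a ⬝ᵥ (M *ᵥ b) + v b)‖ with hT
  have h1 : ‖∑ p ∈ A ×ˢ B, ZMod.stdAddChar (p.1 ⬝ᵥ (M *ᵥ p.2) + u p.1 + v p.2)‖ ≤
      ∑ a ∈ A, T a := by
    rw [Finset.sum_product]
    refine (norm_sum_le _ _).trans (le_of_eq (Finset.sum_congr rfl fun a _ => ?_))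
    have e1 : ∑ b ∈ B, ZMod.stdAddChar (a ⬝ᵥ (M *ᵥ b) + u a + v b) =
        ZMod.stdAddChar (u a) * ∑ b ∈ B, ZMod.stdAddChar (a ⬝ᵥ (M *ᵥ b) + v b) := by
      rw [Finset.mul_sum]
      refine Finset.sum_congr rfl fun b _ => ?_
      rw [← AddChar.map_add_eq_mul]
      congr 1
      ring
    rw [e1, norm_mul, ZMod.stdAddChar_apply, Circle.norm_coe, one_mul]
  have h2 : (∑ a ∈ A, T a) ^ 2 ≤ A.card * ∑ a ∈ A, T a ^ 2 := sq_sum_le_card_mul_sum_sq
  have h3 : ∑ a ∈ A, T a ^ 2 ≤ ∑ a : Fin k → ZMod P, T a ^ 2 :=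
    Finset.sum_le_sum_of_subset_of_nonneg (Finset.subset_univ _) fun a _ _ => by positivity
  -- expand
  have h4 : ((∑ a : Fin k → ZMod P, T a ^ 2 : ℝ) : ℂ) =
      ∑ b ∈ B, ∑ b' ∈ B, ZMod.stdAddChar (v b - v b') *
        ∑ a : Fin k → ZMod P, ZMod.stdAddChar (a ⬝ᵥ (M *ᵥ (b - b'))) := by
    push_cast
    have h5 : ∀ a : Fin k → ZMod P, ((T a : ℝ) : ℂ) ^ 2 = ∑ b ∈ B, ∑ b' ∈ B,
        ZMod.stdAddChar (v b - v b') * ZMod.stdAddChar (a ⬝ᵥ (M *ᵥ (b - b'))) := by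
      intro a
      rw [hT]
      simp only
      rw [← Complex.mul_conj', map_sum, Finset.sum_mul_sum]
      refine Finset.sum_congr rfl fun b _ => Finset.sum_congr rfl fun b' _ => ?_
      rw [← AddChar.map_neg_eq_conj, ← AddChar.map_add_eq_mul, ← AddChar.map_add_eq_mul]
      congr 1
      rw [mulVec_sub, dotProduct_sub]
      ring
    rw [Finset.sum_congr rfl fun a _ => h5 a, Finset.sum_comm]
    refine Finset.sum_congr rfl fun b _ => ?_
    rw [Finset.sum_comm]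
    refine Finset.sum_congr rfl fun b' _ => ?_
    rw [Finset.mul_sum]
  have h0 : 0 ≤ ∑ a : Fin k → ZMod P, T a ^ 2 := Finset.sum_nonneg fun a _ => by positivity
  have hcardk : ((Fintype.card (Fin k → ZMod P) : ℕ) : ℝ) = (P : ℝ) ^ (k : ℝ) := by
    rw [Fintype.card_fun, Fintype.card_fin, ZMod.card, Real.rpow_natCast]
    push_cast
    rfl
  have h6 : ∀ b ∈ B, ∑ b' ∈ B, ‖ZMod.stdAddChar (v b - v b') *
        ∑ a : Fin k → ZMod P, ZMod.stdAddChar (a ⬝ᵥ (M *ᵥ (b - b')))‖ ≤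
      (P : ℝ) ^ (k : ℝ) * (P : ℝ) ^ ((l : ℝ) - ρ) := by
    intro b _
    have h7 : ∀ b' ∈ B, ‖ZMod.stdAddChar (v b - v b') *
        ∑ a : Fin k → ZMod P, ZMod.stdAddChar (a ⬝ᵥ (M *ᵥ (b - b')))‖ =
        if M *ᵥ (b - b') = 0 then (P : ℝ) ^ (k : ℝ) else 0 := by
      intro b' _
      rw [norm_mul, ZMod.stdAddChar_apply, Circle.norm_coe, one_mul]
      split_ifs with h
      · rw [h]
        simp only [dotProduct_zero, AddChar.map_zero_eq_one, Finset.sum_const, Finset.card_univ,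
          nsmul_eq_mul, mul_one]
        rw [← hcardk]
        simp
      · rw [sum_char_dot P k _ h, norm_zero]
    rw [Finset.sum_congr rfl h7, ← Finset.sum_filter, Finset.sum_const, nsmul_eq_mul, mul_comm]
    apply mul_le_mul_of_nonneg_left _ (by positivity)
    refine le_trans ?_ (card_ker P k l ρ M hρ)
    have h8 : (B.filter (fun b' => M *ᵥ (b - b') = 0)).card ≤
        ((Finset.univ : Finset (Fin l → ZMod P)).filter (fun y => M *ᵥ y = 0)).card := by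
      apply Finset.card_le_card_of_injOn (fun b' => b - b')
      · intro b' hb'
        simp only [Finset.coe_filter, Set.mem_ofPred_eq] at hb' ⊢
        exact ⟨Finset.mem_univ _, hb'.2⟩
      · intro x _ y _ hxy
        exact sub_right_injective hxy
    exact_mod_cast h8
  have h9 : ∑ a : Fin k → ZMod P, T a ^ 2 ≤ B.card * ((P : ℝ) ^ (k : ℝ) * (P : ℝ) ^ ((l : ℝ) - ρ)) := by
    calc ∑ a : Fin k → ZMod P, T a ^ 2 = ‖((∑ a : Fin k → ZMod P, T a ^ 2 : ℝ) : ℂ)‖ := by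
          rw [Complex.norm_real, Real.norm_of_nonneg h0]
      _ ≤ ∑ b ∈ B, ∑ b' ∈ B, ‖ZMod.stdAddChar (v b - v b') *
            ∑ a : Fin k → ZMod P, ZMod.stdAddChar (a ⬝ᵥ (M *ᵥ (b - b')))‖ := by
          rw [h4]
          exact (norm_sum_le _ _).trans (Finset.sum_le_sum fun b _ => norm_sum_le _ _)
      _ ≤ ∑ _b ∈ B, (P : ℝ) ^ (k : ℝ) * (P : ℝ) ^ ((l : ℝ) - ρ) := Finset.sum_le_sum h6
      _ = _ := by rw [Finset.sum_const, nsmul_eq_mul]
  calc ‖∑ p ∈ A ×ˢ B, ZMod.stdAddChar (p.1 ⬝ᵥ (M *ᵥ p.2) + u p.1 + v p.2)‖ ^ 2 ≤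
      (∑ a ∈ A, T a) ^ 2 := pow_le_pow_left₀ (norm_nonneg _) h1 2
    _ ≤ A.card * ∑ a ∈ A, T a ^ 2 := h2
    _ ≤ A.card * (B.card * ((P : ℝ) ^ (k : ℝ) * (P : ℝ) ^ ((l : ℝ) - ρ))) := by
        gcongr
        exact h3.trans h9
    _ = _ := by
        rw [← Real.rpow_add hP0]
        ring_nf

end Pool.Agent.D0H59.RG
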