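import Pool.Agent.Y961.JR.ScaledJ

set_option autoImplicit false

/-! # Least residues modulo a prime `P` in residue classes to small moduli -/

namespace Pool.Agent.D0H59.RG

open Finset Filter
open Pool.Agent.H469R2.NK (e norm_e e_add)

/-- the standard character -/
lemma char_int (P : ℕ) [NeZero P] (n : ℤ) :
    ZMod.stdAddChar (N := P) (n : ZMod P) = e ((n : ℝ) / P) := by
  rw [ZMod.stdAddChar_coe]
  unfold e
  congr 1
  push_cast
  ring

/-- the class of the least residue of `v` modulo `q` from the integral part of `q t / P`,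
`t = v / q` modulo `P` -/
lemma class_iff (P q : ℕ) (hP : P.Prime) (hq : 1 ≤ q) (hqP : q < P) (v : ZMod P) (ρ : ℤ) (u : ℤ)
    (hu : (q : ℤ) ∣ u * P - 1) :
    (q : ℤ) ∣ (v.val : ℤ) - ρ ↔
      (q : ℤ) ∣ ⌊((q : ℝ) * (((q : ZMod P)⁻¹ * v).val : ℝ)) / P⌋ - (-(u * ρ)) := by
  have : Fact P.Prime := ⟨hP⟩
  have hP0 : 0 < P := hP.pos
  set t : ℕ := ((q : ZMod P)⁻¹ * v).val with ht
  have hq0 : (q : ZMod P) ≠ 0 := by
    intro h
    rw [ZMod.natCast_eq_zero_iff] at h
    have := Nat.le_of_dvd (by omega) h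
    omega
  have h1 : ((q * t : ℕ) : ZMod P) = v := by
    push_cast
    rw [ht, ZMod.natCast_zmod_val, ← mul_assoc, mul_inv_cancel₀ hq0, one_mul]
  have h2 : (q * t) % P = v.val := by
    rw [← h1, ZMod.val_natCast]
  have h3 : P * ((q * t) / P) + v.val = q * t := by
    rw [← h2]
    exact Nat.div_add_mod _ _
  set w : ℕ := (q * t) / P with hw
  have h4 : ⌊((q : ℝ) * (t : ℝ)) / P⌋ = (w : ℤ) := by
    rw [Int.floor_eq_iff]
    have hPr : (0 : ℝ) < P := by exact_mod_cast hP0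
    have h5 : (v.val : ℝ) < P := by exact_mod_cast ZMod.val_lt v
    have h6 : (0 : ℝ) ≤ (v.val : ℝ) := Nat.cast_nonneg _
    have h7 : (P : ℝ) * (w : ℝ) + (v.val : ℝ) = q * t := by exact_mod_cast h3
    constructor
    · rw [le_div_iff₀ hPr, Int.cast_natCast]
      nlinarith
    · rw [div_lt_iff₀ hPr, Int.cast_natCast]
      nlinarith
  rw [h4]
  have h5 : (v.val : ℤ) = q * t - P * w := by
    have : (P : ℤ) * w + v.val = q * t := by exact_mod_cast h3
    linarith
  obtain ⟨k, hk⟩ := hu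
  have e1 : (v.val : ℤ) - ρ = q * t - (P * w + ρ) := by rw [h5]; ring
  constructor
  · rintro ⟨m, hm⟩
    -- v - ρ = q m
    refine ⟨u * (t - m) - k * w, ?_⟩
    have e2 : (P : ℤ) * w + ρ = q * (t - m) := by
      have := e1.symm.trans hm
      linarith
    have e3 : u * ((P : ℤ) * w + ρ) = u * (q * (t - m)) := by rw [e2]
    have e4 : (u * P - 1) * w = q * k * w := by rw [hk]
    linear_combination e3 - e4
  · rintro ⟨m, hm⟩
    refine ⟨t - P * m + k * ρ, ?_⟩
    have e3 : (P : ℤ) * ((w : ℤ) - (-(u * ρ))) = P * (q * m) := by rw [hm]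
    have e4 : (u * P - 1) * ρ = q * k * ρ := by rw [hk]
    rw [e1]
    linear_combination e4 - e3

/-- the sums over the residues divided by `q` -/
lemma exp_eq (P q : ℕ) [NeZero P] {ι : Type} {r : ℕ} (s : Finset ι)
    (x : ι → Fin r → ZMod P) (h : Fin r → ℤ) :
    ∑ i ∈ s, e (∑ j, (h j : ℝ) * ((((q : ZMod P)⁻¹ * x i j).val : ℝ) / P)) =
      ∑ i ∈ s, ZMod.stdAddChar (∑ j, (((h j : ZMod P)) * (q : ZMod P)⁻¹) * x i j) := by
  refine Finset.sum_congr rfl fun i _ => ?_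
  have h1 : (∑ j, (((h j : ZMod P)) * (q : ZMod P)⁻¹) * x i j) =
      ((∑ j, h j * (((q : ZMod P)⁻¹ * x i j).val : ℤ) : ℤ) : ZMod P) := by
    push_cast
    refine Finset.sum_congr rfl fun j _ => ?_
    rw [ZMod.natCast_zmod_val]
    ring
  rw [h1, char_int]
  congr 1
  push_cast
  rw [Finset.sum_div]
  refine Finset.sum_congr rfl fun j _ => ?_
  ring

/-- the number of the vectors of least residues in a class modulo `q` -/
theorem count (P q K r : ℕ) (hP : P.Prime) (hr : 1 ≤ r) (hq : 1 ≤ q) (hqP : q < P) (hK : 1 ≤ K)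
    (hqK : 3 * q ≤ K) (hKP : K ^ 3 ≤ P) {ι : Type} (s : Finset ι)
    (x : ι → Fin r → ZMod P) (E : ℝ) (hE0 : 0 ≤ E)
    (hE : haveI : NeZero P := ⟨hP.ne_zero⟩
      ∀ h : Fin r → ZMod P, h ≠ 0 →
      ‖∑ i ∈ s, ZMod.stdAddChar (∑ j, h j * x i j)‖ ≤ E) (ρ : Fin r → ℤ) :
    |((s.filter (fun i => ∀ j, (q : ℤ) ∣ ((x i j).val : ℤ) - ρ j)).card : ℝ) -
      s.card / (q : ℝ) ^ r| ≤
      (q : ℝ) ^ r * ((3 * r + 4) * s.card / K + (K : ℝ) ^ (3 * r) * E) := by
  classical
  have : NeZero P := ⟨hP.ne_zero⟩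
  have : Fact P.Prime := ⟨hP⟩
  have hPr : (0 : ℝ) < P := by exact_mod_cast hP.pos
  have hqr : (0 : ℝ) < q := by exact_mod_cast hq
  -- inverse of `P` modulo `q`
  obtain ⟨u, hu⟩ : ∃ u : ℤ, (q : ℤ) ∣ u * P - 1 := by
    have hcop : IsCoprime (P : ℤ) (q : ℤ) := by
      rw [Int.isCoprime_iff_gcd_eq_one]
      have : Nat.Coprime P q := (Nat.Prime.coprime_iff_not_dvd hP).mpr fun hd => by
        have := Nat.le_of_dvd (by omega) hd
        omega
      exact_mod_cast this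
    obtain ⟨a, b, hab⟩ := hcop
    refine ⟨a, -b, ?_⟩
    linarith
  have hq0 : (q : ZMod P) ≠ 0 := by
    intro h
    rw [ZMod.natCast_eq_zero_iff] at h
    have := Nat.le_of_dvd (by omega) h
    omega
  set X : ι → Fin r → ℝ := fun i j => ((q : ℝ) * (((q : ZMod P)⁻¹ * x i j).val : ℝ)) / P with hX
  have hd := Pool.Agent.Y961.JR.discJ hr s X K q hK hq hqK E hE0 (by
    intro h hh hhK
    have e1 : ∀ i, (∑ j, (h j : ℝ) * (X i j / q)) =
        ∑ j, (h j : ℝ) * ((((q : ZMod P)⁻¹ * x i j).val : ℝ) / P) := by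
      intro i
      refine Finset.sum_congr rfl fun j _ => ?_
      simp only [hX]
      field_simp
    simp only [e1]
    rw [exp_eq]
    apply hE
    intro h0
    apply hh
    funext j
    have h1 := congrFun h0 j
    simp only [Pi.zero_apply, mul_eq_zero, inv_eq_zero, hq0, or_false] at h1
    rw [ZMod.intCast_zmod_eq_zero_iff_dvd] at h1
    have h2 := hhK j
    by_contra h3
    have h4 := Int.natAbs_dvd_natAbs.mpr h1
    rw [Int.natAbs_natCast] at h4
    have h5 := Nat.le_of_dvd (Int.natAbs_pos.mpr h3) h4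
    omega) (fun j => -(u * ρ j))
  have hfil : (s.filter (fun i => ∀ j, (q : ℤ) ∣ ((x i j).val : ℤ) - ρ j)) =
      s.filter (fun i => ∀ j, (q : ℤ) ∣ ⌊X i j⌋ - (-(u * ρ j))) := by
    apply Finset.filter_congr
    intro i _
    exact forall_congr' fun j => class_iff P q hP hq hqP (x i j) (ρ j) u hu
  rw [hfil]
  exact hd

end Pool.Agent.D0H59.RG
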