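import Pool.Agent.D0H59.RG.Count

set_option autoImplicit false

/-! # Families which are uniform modulo `P` meet record gaps -/

namespace Pool.Agent.D0H59.RG

open Finset Filter
open Pool.Agent.H469R2.NK (e norm_e e_add)
open Pool.Agent.W147.PS (ff ff_compare ev_pow)

open scoped Classical

/-- few members have a small residue -/
lemma small_le (P K r : ℕ) (hP : P.Prime) (hK : 1 ≤ K) (hKP : K ^ 3 ≤ P) {ι : Type} (s : Finset ι)
    (x : ι → Fin r → ZMod P) (E : ℝ) (hE0 : 0 ≤ E)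
    (hE : haveI : NeZero P := ⟨hP.ne_zero⟩
      ∀ h : Fin r → ZMod P, h ≠ 0 →
      ‖∑ i ∈ s, ZMod.stdAddChar (∑ j, h j * x i j)‖ ≤ E) (b : ℝ) (hb0 : 0 ≤ b) (hb : b ≤ 1)
    (j : Fin r) :
    ((s.filter (fun i => ((x i j).val : ℝ) < b * P)).card : ℝ) ≤
      s.card * b + 14 * s.card / K + 2 * ((K : ℝ) ^ 3 * E) := by
  have : NeZero P := ⟨hP.ne_zero⟩
  have : Fact P.Prime := ⟨hP⟩
  have hPr : (0 : ℝ) < P := by exact_mod_cast hP.pos
  have h1 := Pool.Agent.TH915.PW.disc s (fun i => ((x i j).val : ℝ) / P) K hK E hE0 (by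
    intro h hh1 hh2
    have h2 := hE (Pi.single j (h : ZMod P)) (by
      intro h0
      have h3 := congrFun h0 j
      rw [Pi.single_eq_same, Pi.zero_apply, ZMod.natCast_eq_zero_iff] at h3
      have := Nat.le_of_dvd (by omega) h3
      omega)
    refine le_trans (le_of_eq ?_) h2
    congr 1
    refine Finset.sum_congr rfl fun i _ => ?_
    have h4 : ∑ k, (Pi.single j (h : ZMod P) : Fin r → ZMod P) k * x i k =
        (((h : ℤ) * ((x i j).val : ℤ) : ℤ) : ZMod P) := by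
      rw [Finset.sum_eq_single j]
      · rw [Pi.single_eq_same]
        push_cast
        rw [ZMod.natCast_zmod_val]
      · intro k _ hk
        rw [Pi.single_eq_of_ne hk, zero_mul]
      · intro h
        exact absurd (Finset.mem_univ j) h
    rw [h4, char_int]
    congr 1
    push_cast
    ring) 0 b le_rfl hb0 hb
  have h2 : (s.filter (fun i => ((x i j).val : ℝ) < b * P)) ⊆
      s.filter (fun i => (0 : ℝ) ≤ Int.fract (((x i j).val : ℝ) / P) ∧
        Int.fract (((x i j).val : ℝ) / P) < b) := by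
    intro i hi
    rw [Finset.mem_filter] at hi ⊢
    refine ⟨hi.1, Int.fract_nonneg _, ?_⟩
    have h3 : Int.fract (((x i j).val : ℝ) / P) = ((x i j).val : ℝ) / P := by
      rw [Int.fract_eq_self]
      refine ⟨by positivity, ?_⟩
      rw [div_lt_one hPr]
      exact_mod_cast ZMod.val_lt _
    rw [h3, div_lt_iff₀ hPr]
    exact hi.2
  have h3 : ((s.filter (fun i => ((x i j).val : ℝ) < b * P)).card : ℝ) ≤
      ((s.filter (fun i => (0 : ℝ) ≤ Int.fract (((x i j).val : ℝ) / P) ∧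
        Int.fract (((x i j).val : ℝ) / P) < b)).card : ℝ) := by
    exact_mod_cast Finset.card_le_card h2
  have h4 := (abs_le.mp h1).2
  rw [sub_zero] at h4
  linarith

lemma theta1 (r σ : ℝ) (hr : 1 ≤ r) : σ / (120 * r ^ 2) * (-(20 * r ^ 2)) = -(σ / 6) := by
  have : r ≠ 0 := by positivity
  field_simp
  ring

lemma theta2 (r σ : ℝ) (hr : 1 ≤ r) (h0 : 0 < σ) (h1 : σ ≤ 1) :
    σ / (120 * r ^ 2) * (10 * r) ≤ 1 := by
  have hr0 : 0 < r := by linarith
  have e1 : σ / (120 * r ^ 2) * (10 * r) = σ / (12 * r) := by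
    field_simp
    norm_num
  rw [e1, div_le_one (by positivity)]
  linarith

/-- Families which are uniform modulo `P` meet record gaps. -/
theorem general (r : ℕ) (hr : 1 ≤ r) (σ : ℝ) (h0 : 0 < σ) (h1 : σ ≤ 1) : ∃ κ : ℝ, 0 < κ ∧
    ∀ᶠ P : ℕ in atTop, ∀ hP : P.Prime, ∀ (ι : Type) (s : Finset ι) (x : ι → Fin r → ZMod P),
    (haveI : NeZero P := ⟨hP.ne_zero⟩
      ∀ h : Fin r → ZMod P, h ≠ 0 →
      ‖∑ i ∈ s, ZMod.stdAddChar (∑ j, h j * x i j)‖ ≤ s.card * (P : ℝ) ^ (-σ)) →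
    s.card * (P : ℝ) ^ (-σ) ≤
      ((s.filter (fun i => ∀ j, ∀ q : ℕ, q.Prime →
        κ * ff P < |(q : ℝ) - ((x i j).val : ℝ)|)).card : ℝ) := by
  obtain ⟨κ, hκ, X₁, hcrit⟩ := Pool.Agent.Y961.JR.critJ r hr
  have hr1 : (1 : ℝ) ≤ r := by exact_mod_cast hr
  have hr2 : (1 : ℝ) ≤ (r : ℝ) ^ 2 := one_le_pow₀ hr1
  set θ : ℝ := σ / (120 * (r : ℝ) ^ 2) with hθ
  have hθ0 : 0 < θ := by positivity
  have hθσ : θ ≤ σ / 120 := by
    rw [hθ]
    apply div_le_div_of_nonneg_left h0.le (by norm_num)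
    linarith
  have hθ1 : θ ≤ 1 := by linarith
  obtain ⟨X₂, h2⟩ := eventually_atTop.mp (Pool.Agent.Y961.JR.ev_bounds r r hr le_rfl)
  obtain ⟨X₃, h3⟩ := eventually_atTop.mp Pool.Agent.Y961.JR.ev_small
  refine ⟨κ * (θ / 32), by positivity, ?_⟩
  have hev : ∀ᶠ M : ℝ in atTop, (Real.log M ≤ ff M ∧ ∀ x : ℝ, M ^ θ ≤ x → x ≤ M ^ 2 →
      θ / 32 * ff M ≤ ff x ∧ 0 < Real.log (Real.log x) ∧
        Real.log (Real.log x) ≤ 2 * Real.log (Real.log M)) ∧
      max X₁ (max X₂ X₃) ≤ M ^ θ ∧ 1 ≤ M ∧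
      2 * (31 * (r : ℝ) + 2) * M ^ (-(σ / 4)) ≤ M ^ (-(σ / 6)) ∧ 8 * M ^ (3 / 4 : ℝ) ≤ M ^ (1 : ℝ) := by
    filter_upwards [ff_compare θ hθ0 hθ1,
      (tendsto_rpow_atTop hθ0).eventually_ge_atTop (max X₁ (max X₂ X₃)),
      eventually_ge_atTop (1 : ℝ),
      ev_pow (-(σ / 4)) (-(σ / 6)) (2 * (31 * (r : ℝ) + 2)) (by linarith),
      ev_pow (3 / 4) 1 8 (by norm_num)] with M a1 a2 a3 a4 a5
    exact ⟨a1, a2, a3, a4, a5⟩
  filter_upwards [tendsto_natCast_atTop_atTop.eventually hev] with P hPev hP ι s x hE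
  obtain ⟨a1, a2, hM1, a4, a5⟩ := hPev
  have : NeZero P := ⟨hP.ne_zero⟩
  have : Fact P.Prime := ⟨hP⟩
  set M : ℝ := (P : ℝ) with hM
  have hM0 : 0 < M := by linarith
  have hmono : ∀ a b : ℝ, a ≤ b → M ^ a ≤ M ^ b := fun a b h =>
    Real.rpow_le_rpow_of_exponent_le hM1 h
  set X : ℝ := M ^ θ with hX
  have hXX1 : X₁ ≤ X := (le_max_left _ _).trans a2
  have hXX2 : X₂ ≤ X := ((le_max_left _ _).trans (le_max_right _ _)).trans a2
  have hXX3 : X₃ ≤ X := ((le_max_right _ _).trans (le_max_right _ _)).trans a2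
  obtain ⟨b1, b2⟩ := h2 X hXX2
  obtain ⟨c1, c2⟩ := h3 X hXX3
  obtain ⟨hfl, hcr⟩ := hcrit X hXX1
  have hX0 : 0 < X := by linarith
  set N : ℝ := (s.card : ℝ) with hN
  have hN0 : 0 ≤ N := Nat.cast_nonneg _
  set G := s.filter (fun i => ∀ j, ∀ q : ℕ, q.Prime →
    κ * (θ / 32) * ff M < |(q : ℝ) - ((x i j).val : ℝ)|) with hG
  by_contra hcon
  push Not at hcon
  have hNpos : 0 < N := by
    rcases hN0.lt_or_eq with h | h
    · exact h
    · exfalso
      rw [← h, zero_mul] at hcon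
      exact absurd hcon (not_lt.mpr (Nat.cast_nonneg _))
  -- small residues
  set K : ℕ := ⌈M ^ (σ / 4)⌉₊ with hK
  have hMs1 : 1 ≤ M ^ (σ / 4) := Real.one_le_rpow hM1 (by linarith)
  have hKl : M ^ (σ / 4) ≤ K := Nat.le_ceil _
  have hKu : (K : ℝ) ≤ 2 * M ^ (σ / 4) := by
    have := (Nat.ceil_lt_add_one (show 0 ≤ M ^ (σ / 4) by linarith)).le
    linarith
  have hK0 : (0 : ℝ) < K := by linarith
  have hK1 : 1 ≤ K := by
    have : 0 < K := by exact_mod_cast hK0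
    omega
  have hK3 : (K : ℝ) ^ 3 ≤ 8 * M ^ (3 * (σ / 4)) := by
    calc (K : ℝ) ^ 3 ≤ (2 * M ^ (σ / 4)) ^ 3 := pow_le_pow_left₀ hK0.le hKu 3
      _ = 8 * M ^ (3 * (σ / 4)) := by
        rw [mul_pow, ← Real.rpow_natCast (M ^ (σ / 4)), ← Real.rpow_mul hM0.le]
        norm_num
        ring_nf
  have hK3P : K ^ 3 ≤ P := by
    have h4 : (K : ℝ) ^ 3 ≤ M := by
      calc (K : ℝ) ^ 3 ≤ 8 * M ^ (3 * (σ / 4)) := hK3
        _ ≤ 8 * M ^ (3 / 4 : ℝ) := by
          have := hmono (3 * (σ / 4)) (3 / 4) (by linarith)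
          linarith
        _ ≤ M ^ (1 : ℝ) := a5
        _ = M := Real.rpow_one M
    rw [hM] at h4
    exact_mod_cast h4
  set b : ℝ := M ^ (-(1 / 2) : ℝ) with hb
  have hb1 : b ≤ 1 := by
    rw [hb, Real.rpow_neg hM0.le]
    apply inv_le_one_of_one_le₀
    exact Real.one_le_rpow hM1 (by norm_num)
  have hsm : ∀ j : Fin r, ((s.filter (fun i => ((x i j).val : ℝ) < b * P)).card : ℝ) ≤
      31 * N * M ^ (-(σ / 4)) := by
    intro j
    have h4 := small_le P K r hP hK1 hK3P s x (N * M ^ (-σ)) (by positivity) hE b (by positivity)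
      hb1 j
    refine h4.trans ?_
    have e1 : N * b ≤ N * M ^ (-(σ / 4)) :=
      mul_le_mul_of_nonneg_left (hmono _ _ (by linarith)) hN0
    have e2 : 14 * N / K ≤ 14 * (N * M ^ (-(σ / 4))) := by
      rw [Real.rpow_neg hM0.le, mul_div_assoc, div_eq_mul_inv]
      gcongr
    have e3 : 2 * ((K : ℝ) ^ 3 * (N * M ^ (-σ))) ≤ 16 * (N * M ^ (-(σ / 4))) := by
      have e4 : M ^ (3 * (σ / 4)) * M ^ (-σ) = M ^ (-(σ / 4)) := by
        rw [← Real.rpow_add hM0]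
        congr 1
        ring
      calc 2 * ((K : ℝ) ^ 3 * (N * M ^ (-σ))) ≤ 2 * (8 * M ^ (3 * (σ / 4)) * (N * M ^ (-σ))) := by
            gcongr
        _ = 16 * (N * (M ^ (3 * (σ / 4)) * M ^ (-σ))) := by ring
        _ = _ := by rw [e4]
    linarith
  -- the bad members without small residues
  set s' := s.filter (fun i => ¬ (∀ j, ∀ q : ℕ, q.Prime →
    κ * (θ / 32) * ff M < |(q : ℝ) - ((x i j).val : ℝ)|) ∧
      ∀ j, ¬ (((x i j).val : ℝ) < b * P)) with hs'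
  have hsub : s \ s' ⊆ G ∪ (Finset.univ : Finset (Fin r)).biUnion
      (fun j => s.filter (fun i => ((x i j).val : ℝ) < b * P)) := by
    intro i hi
    rw [Finset.mem_sdiff, hs', Finset.mem_filter] at hi
    obtain ⟨hi1, hi2⟩ := hi
    rw [Finset.mem_union, hG, Finset.mem_filter, Finset.mem_biUnion]
    by_cases h5 : (∀ j, ∀ q : ℕ, q.Prime →
      κ * (θ / 32) * ff M < |(q : ℝ) - ((x i j).val : ℝ)|)
    · exact Or.inl ⟨hi1, h5⟩
    · right
      by_contra h6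
      apply hi2
      refine ⟨hi1, h5, fun j hj => h6 ⟨j, Finset.mem_univ _, ?_⟩⟩
      rw [Finset.mem_filter]
      exact ⟨hi1, hj⟩
  have hrem : ((s \ s').card : ℝ) ≤ N * M ^ (-σ) + r * (31 * N * M ^ (-(σ / 4))) := by
    have h5 : ((s \ s').card : ℝ) ≤ G.card + ∑ j : Fin r,
        ((s.filter (fun i => ((x i j).val : ℝ) < b * P)).card : ℝ) := by
      have h6 := (Finset.card_le_card hsub).trans ((Finset.card_union_le _ _).trans
        (Nat.add_le_add_left Finset.card_biUnion_le _))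
      exact_mod_cast h6
    refine h5.trans (add_le_add hcon.le ?_)
    calc ∑ j : Fin r, ((s.filter (fun i => ((x i j).val : ℝ) < b * P)).card : ℝ) ≤
        ∑ _j : Fin r, 31 * N * M ^ (-(σ / 4)) := Finset.sum_le_sum fun j _ => hsm j
      _ = _ := by rw [Finset.sum_const, Finset.card_univ, Fintype.card_fin, nsmul_eq_mul]
  have hss' : s' ⊆ s := Finset.filter_subset _ _
  have hMσ : M ^ (-σ) ≤ M ^ (-(σ / 4)) := hmono _ _ (by linarith)
  have hM6 : M ^ (-(σ / 6)) ≤ 1 := by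
    calc M ^ (-(σ / 6)) ≤ M ^ (0 : ℝ) := hmono _ _ (by linarith)
      _ = 1 := Real.rpow_zero M
  have hrem1 : ((s \ s').card : ℝ) + N * M ^ (-σ) ≤ N / 2 * M ^ (-(σ / 6)) := by
    have h5 : N * M ^ (-σ) ≤ N * M ^ (-(σ / 4)) := mul_le_mul_of_nonneg_left hMσ hN0
    have h6 := mul_le_mul_of_nonneg_left a4 hN0
    nlinarith
  have hcards : ((s \ s').card : ℝ) + s'.card = N := by
    have := Finset.card_sdiff_add_card_eq_card hss'
    rw [hN]
    exact_mod_cast this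
  have hs'N : N / 2 ≤ (s'.card : ℝ) := by
    have h5 : 0 ≤ N * M ^ (-σ) := by positivity
    have h6 : N / 2 * M ^ (-(σ / 6)) ≤ N / 2 * 1 := mul_le_mul_of_nonneg_left hM6 (by linarith)
    linarith
  have hs'ne : s'.Nonempty := by
    rw [← Finset.card_pos]
    have : (0 : ℝ) < s'.card := by linarith
    exact_mod_cast this
  have hM20 : X ^ (-(20 * (r : ℝ) ^ 2)) = M ^ (-(σ / 6)) := by
    rw [hX, ← Real.rpow_mul hM0.le, hθ, theta1 r σ hr1]
  have hE' : ∀ h : Fin r → ZMod P, h ≠ 0 →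
      ‖∑ i ∈ s', ZMod.stdAddChar (∑ j, h j * x i j)‖ ≤ s'.card * X ^ (-(20 * (r : ℝ) ^ 2)) := by
    intro h hh
    have h5 := Finset.sum_sdiff (f := fun i => ZMod.stdAddChar (∑ j, h j * x i j)) hss'
    have h6 : ∑ i ∈ s', ZMod.stdAddChar (∑ j, h j * x i j) =
        ∑ i ∈ s, ZMod.stdAddChar (∑ j, h j * x i j) -
          ∑ i ∈ s \ s', ZMod.stdAddChar (∑ j, h j * x i j) := by
      rw [← h5]; ring
    have h7 : ‖∑ i ∈ s \ s', ZMod.stdAddChar (∑ j, h j * x i j)‖ ≤ (s \ s').card := by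
      refine (norm_sum_le _ _).trans ?_
      rw [← nsmul_one, ← Finset.sum_const]
      refine Finset.sum_le_sum fun i _ => ?_
      rw [ZMod.stdAddChar_apply, Circle.norm_coe]
    rw [h6, hM20]
    calc ‖∑ i ∈ s, ZMod.stdAddChar (∑ j, h j * x i j) -
          ∑ i ∈ s \ s', ZMod.stdAddChar (∑ j, h j * x i j)‖ ≤
          N * M ^ (-σ) + (s \ s').card := (norm_sub_le _ _).trans (add_le_add (hE h hh) h7)
      _ ≤ N / 2 * M ^ (-(σ / 6)) := by linarith
      _ ≤ s'.card * M ^ (-(σ / 6)) := mul_le_mul_of_nonneg_right hs'N (by positivity)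
  have hXP : X ^ (10 * r) ≤ M := by
    rw [hX, ← Real.rpow_natCast, ← Real.rpow_mul hM0.le]
    calc M ^ (θ * ((10 * r : ℕ) : ℝ)) ≤ M ^ (1 : ℝ) := by
          apply hmono
          push_cast
          exact theta2 r σ hr1 h0 h1
      _ = M := Real.rpow_one M
  obtain ⟨i, hi, hi2⟩ := hcr ι s' (fun i j => ((x i j).val : ℤ)) hs'ne (by
    intro q hq hqX ρ
    obtain ⟨k1, k2, k3, k4⟩ := b2 q hq hqX s'.card (Nat.cast_nonneg _)
    have k5 : ⌈X ^ (3 * r)⌉₊ ^ 3 ≤ P := by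
      have : ((⌈X ^ (3 * r)⌉₊ : ℕ) : ℝ) ^ 3 ≤ (P : ℝ) := k3.trans hXP
      exact_mod_cast this
    have k6 : q < P := by
      have : ⌈X ^ (3 * r)⌉₊ ≤ ⌈X ^ (3 * r)⌉₊ ^ 3 := Nat.le_self_pow (by norm_num) _
      omega
    have hd := count P q ⌈X ^ (3 * r)⌉₊ r hP hr hq k6 k1 k2 k5 s' x
      (s'.card * X ^ (-(20 * (r : ℝ) ^ 2))) (by positivity) hE' ρ
    refine hd.trans (k4.trans ?_)
    have : 0 ≤ (s'.card : ℝ) * X ^ (-(2 * (r : ℝ))) := by positivity
    linarith)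
  rw [hs', Finset.mem_filter] at hi
  obtain ⟨his, hi3, hi4⟩ := hi
  apply hi3
  intro j q hq
  have h5 : X ≤ (((x i j).val : ℤ) : ℝ) := by
    have h6 := not_lt.mp (hi4 j)
    have h7 : X ≤ b * P := by
      rw [hb, hX]
      calc M ^ θ ≤ M ^ (-(1 / 2) + 1 : ℝ) := hmono _ _ (by linarith)
        _ = M ^ (-(1 / 2) : ℝ) * M := by rw [Real.rpow_add hM0, Real.rpow_one]
    push_cast
    linarith
  have h6 := Pool.Agent.Y961.JR.no_prime κ X hfl c1 c2 (((x i j).val : ℤ) : ℝ) h5 (by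
    intro m hm
    rw [Int.floor_intCast] at hm
    exact hi2 j m hm) q hq
  push_cast at h6
  exact lt_of_le_of_lt (Pool.Agent.Y961.JR.ff_scaled κ θ M hκ hθ1 hM1 a1.2) h6

end Pool.Agent.D0H59.RG
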