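import Pool.Agent.H373R2.NB.Weyl
import Pool.Agent.D0H59.RG.Count

set_option autoImplicit false

/-! # Weyl sums modulo a prime `P` over segments of length `P ^ (1 / d + ε)` -/

namespace Pool.Agent.D0H59.RG

open Finset Filter Polynomial
open Pool.Agent.H373R2.NB (IW IW_all Ph_poly)

lemma ee_eq (x : ℝ) : Pool.Agent.Helper602.MK.ee x = Pool.Agent.H469R2.NK.e x := by
  unfold Pool.Agent.Helper602.MK.ee Pool.Agent.H469R2.NK.e
  congr 1
  push_cast
  ring

/-- the sum over a polynomial modulo `P` as a sum with a real phase -/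
lemma sum_lift (P : ℕ) [NeZero P] (g : (ZMod P)[X]) (F : ℤ[X])
    (hF : F.map (Int.castRingHom (ZMod P)) = g) (N : ℕ) :
    ∑ n ∈ range N, ZMod.stdAddChar (g.eval (n : ZMod P)) =
      ∑ n ∈ range N, Pool.Agent.Helper602.MK.ee (1 / (P : ℝ) * ((F.eval (n : ℤ) : ℤ) : ℝ)) := by
  refine Finset.sum_congr rfl fun n _ => ?_
  have h1 : g.eval (n : ZMod P) = ((F.eval (n : ℤ) : ℤ) : ZMod P) := by
    rw [← hF]
    have := Polynomial.eval_intCast_map (Int.castRingHom (ZMod P)) F (n : ℤ)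
    push_cast at this
    rw [this]
    rfl
  rw [h1, char_int, ee_eq]
  congr 1
  ring

lemma exists_const (D : ℕ) : ∃ c m : ℕ, 1 ≤ c ∧ 1 ≤ m ∧ ∀ d, 1 ≤ d → d ≤ D →
    ∀ (N : ℕ) (u α : ℝ) (φ : ℕ → ℝ), 1 ≤ N → 1 ≤ u → Pool.Agent.H373R2.NB.Ph d α φ →
    (N : ℝ) ≤ u * ‖∑ n ∈ range N, Pool.Agent.Helper602.MK.ee (φ n)‖ →
    ∃ q : ℕ, 1 ≤ q ∧ (q : ℝ) ≤ c * u ^ m ∧ ∃ a : ℤ, |q * α - a| ≤ c * u ^ m / (N : ℝ) ^ d := by
  induction D with
  | zero => exact ⟨1, 1, le_rfl, le_rfl, fun d h1 h2 => by omega⟩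
  | succ D ih =>
    obtain ⟨c, m, hc, hm, h⟩ := ih
    obtain ⟨c', m', hc', h'⟩ := IW_all (D + 1) (by omega)
    refine ⟨c + c', m + m', by omega, by omega, ?_⟩
    intro d hd1 hd2 N u α φ hN hu hφ hS
    have hu0 : 0 < u := by linarith
    have hN0 : (0 : ℝ) < N := by exact_mod_cast hN
    have mono1 : (c : ℝ) * u ^ m ≤ ((c + c' : ℕ) : ℝ) * u ^ (m + m') := by
      push_cast
      have h1 : u ^ m ≤ u ^ (m + m') := pow_le_pow_right₀ hu (by omega)
      have h2 : (c : ℝ) ≤ c + c' := by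
        have : (0 : ℝ) ≤ c' := Nat.cast_nonneg _
        linarith
      gcongr
    have mono2 : (c' : ℝ) * u ^ m' ≤ ((c + c' : ℕ) : ℝ) * u ^ (m + m') := by
      push_cast
      have h1 : u ^ m' ≤ u ^ (m + m') := pow_le_pow_right₀ hu (by omega)
      have h2 : (c' : ℝ) ≤ c + c' := by
        have : (0 : ℝ) ≤ c := Nat.cast_nonneg _
        linarith
      gcongr
    rcases Nat.lt_or_ge D d with h3 | h3
    · have h4 : d = D + 1 := by omega
      subst h4
      obtain ⟨q, hq1, hq2, a, ha⟩ := h' N u α φ hN hu hφ hS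
      refine ⟨q, hq1, hq2.trans mono2, a, ha.trans ?_⟩
      gcongr
    · obtain ⟨q, hq1, hq2, a, ha⟩ := h d hd1 h3 N u α φ hN hu hφ hS
      refine ⟨q, hq1, hq2.trans mono1, a, ha.trans ?_⟩
      gcongr

/-- Weyl sums modulo `P` over segments save a power of `P` -/
theorem weyl_mod (D d : ℕ) (hd : 1 ≤ d) (ε : ℝ) (hε : 0 < ε) : ∃ σ : ℝ, 0 < σ ∧ σ ≤ 1 ∧ σ ≤ ε ∧
    ∀ᶠ P : ℕ in atTop, ∀ hP : P.Prime, haveI : NeZero P := ⟨hP.ne_zero⟩
    ∀ g : (ZMod P)[X], d ≤ g.natDegree → g.natDegree ≤ D →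
    ∀ N : ℕ, (P : ℝ) ^ (1 / (d : ℝ) + ε) ≤ N →
      ‖∑ n ∈ range N, ZMod.stdAddChar (g.eval (n : ZMod P))‖ ≤ N * (P : ℝ) ^ (-σ) := by
  obtain ⟨c, m, hc, hm, hI⟩ := exists_const D
  have hc1 : (1 : ℝ) ≤ c := by exact_mod_cast hc
  have hm1 : (1 : ℝ) ≤ m := by exact_mod_cast hm
  have hd1 : (1 : ℝ) ≤ d := by exact_mod_cast hd
  set ε₁ : ℝ := min ε 1 with hε₁
  have hε₁0 : 0 < ε₁ := lt_min hε one_pos
  have hε₁1 : ε₁ ≤ 1 := min_le_right _ _
  have hε₁ε : ε₁ ≤ ε := min_le_left _ _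
  set σ : ℝ := ε₁ / (2 * m) with hσ
  have hσ0 : 0 < σ := by positivity
  have hσm : σ * m = ε₁ / 2 := by rw [hσ]; field_simp
  have hσε : σ ≤ ε₁ / 2 := by
    rw [← hσm]
    nlinarith
  refine ⟨σ, hσ0, by linarith, by linarith, ?_⟩
  have hev : ∀ᶠ M : ℝ in atTop, 1 < M ∧ (D.factorial : ℝ) < M ∧
      2 * c * M ^ (ε₁ / 2) ≤ M ^ ε₁ := by
    filter_upwards [eventually_gt_atTop (1 : ℝ), eventually_gt_atTop (D.factorial : ℝ),
      Pool.Agent.W147.PS.ev_pow (ε₁ / 2) ε₁ (2 * c) (by linarith)] with M h1 h2 h3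
    exact ⟨h1, h2, h3⟩
  filter_upwards [tendsto_natCast_atTop_atTop.eventually hev] with P hPev hP g hdg hgD N hN
  obtain ⟨hM1, hMD, hM⟩ := hPev
  have : NeZero P := ⟨hP.ne_zero⟩
  have : Fact P.Prime := ⟨hP⟩
  set M : ℝ := (P : ℝ) with hMdef
  have hM0 : 0 < M := by linarith
  have hmono : ∀ a b : ℝ, a ≤ b → M ^ a ≤ M ^ b := fun a b h =>
    Real.rpow_le_rpow_of_exponent_le hM1.le h
  by_contra hcon
  push Not at hcon
  have hN1' : (1 : ℝ) ≤ N := by
    refine le_trans ?_ hN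
    exact Real.one_le_rpow hM1.le (by positivity)
  have hN1 : 1 ≤ N := by exact_mod_cast hN1'
  have hN0 : (0 : ℝ) < N := by linarith
  -- lift
  obtain ⟨F, hF, hFd⟩ := Polynomial.exists_natDegree_eq_of_mem_lifts
    (Polynomial.mem_lifts_of_surjective (f := Int.castRingHom (ZMod P))
      (ZMod.intCast_surjective (n := P)) g)
  set k : ℕ := g.natDegree with hk
  rw [sum_lift P g F hF N] at hcon
  have hPh := Ph_poly k F hFd.le (1 / M)
  obtain ⟨q, hq1, hq2, a, ha⟩ := hI k (hd.trans hdg) hgD N (M ^ σ) _ _ hN1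
    (Real.one_le_rpow hM1.le hσ0.le) hPh (by
      have h1 : M ^ σ * (N * M ^ (-σ)) = N := by
        rw [mul_left_comm, ← Real.rpow_add hM0]
        simp
      have h2 : M ^ σ * (N * M ^ (-σ)) ≤ M ^ σ * _ :=
        mul_le_mul_of_nonneg_left hcon.le (by positivity)
      rwa [h1] at h2)
  have hum : (M ^ σ) ^ m = M ^ (ε₁ / 2) := by
    rw [← Real.rpow_natCast, ← Real.rpow_mul hM0.le, hσm]
  rw [hum] at hq2 ha
  have hcM : 2 * (c * M ^ (ε₁ / 2)) ≤ M ^ ε₁ := by linarith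
  have hcM0 : 0 < c * M ^ (ε₁ / 2) := by positivity
  have hMε1 : M ^ ε₁ ≤ M := by
    calc M ^ ε₁ ≤ M ^ (1 : ℝ) := hmono _ _ hε₁1
      _ = M := Real.rpow_one M
  have hqP : q < P := by
    have : (q : ℝ) < P := by
      rw [← hMdef]
      linarith
    exact_mod_cast this
  -- the power of `N`
  have hNk : M ^ (1 + ε₁) ≤ (N : ℝ) ^ k := by
    have hk1 : (1 : ℝ) ≤ k := by exact_mod_cast hd.trans hdg
    have hdk : (d : ℝ) ≤ k := by exact_mod_cast hdg
    calc M ^ (1 + ε₁) ≤ M ^ ((1 / (d : ℝ) + ε) * k) := by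
          apply hmono
          have h1 : 1 ≤ 1 / (d : ℝ) * k := by
            rw [div_mul_eq_mul_div, one_mul, le_div_iff₀ (by linarith)]
            linarith
          have h2 : ε₁ ≤ ε * k := by nlinarith
          linarith
      _ = (M ^ (1 / (d : ℝ) + ε)) ^ k := by
          rw [Real.rpow_mul hM0.le, Real.rpow_natCast]
      _ ≤ (N : ℝ) ^ k := pow_le_pow_left₀ (by positivity) hN k
  -- the integer
  set z : ℤ := q * (k.factorial * F.coeff k) - a * P with hz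
  have hz1 : (q : ℝ) * (1 / M * ((k.factorial : ℝ) * (F.coeff k : ℤ))) - a = (z : ℝ) / M := by
    rw [hz]
    push_cast
    rw [← hMdef]
    field_simp
  rw [hz1, abs_div, abs_of_pos hM0, div_le_div_iff₀ hM0 (by positivity)] at ha
  have hz2 : |(z : ℝ)| < 1 := by
    by_contra h
    push Not at h
    have h1 : M ^ (1 + ε₁) ≤ |(z : ℝ)| * (N : ℝ) ^ k := by
      calc M ^ (1 + ε₁) ≤ (N : ℝ) ^ k := hNk
        _ = 1 * (N : ℝ) ^ k := (one_mul _).symm
        _ ≤ _ := mul_le_mul_of_nonneg_right h (by positivity)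
    have h2 : M ^ (1 + ε₁) = M * M ^ ε₁ := by rw [Real.rpow_add hM0, Real.rpow_one]
    rw [h2] at h1
    have h3 : M * M ^ ε₁ ≤ M * (c * M ^ (ε₁ / 2)) := by linarith
    have h4 := le_of_mul_le_mul_left h3 hM0
    linarith
  have hz3 : z = 0 := by
    have : |z| < 1 := by exact_mod_cast hz2
    exact Int.abs_lt_one_iff.mp this
  have hdvd : (P : ℤ) ∣ q * (k.factorial * F.coeff k) := ⟨a, by linarith⟩
  have hPp : Prime (P : ℤ) := Nat.prime_iff_prime_int.mp hP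
  rcases hPp.dvd_or_dvd hdvd with h1 | h1
  · have h2 := Nat.le_of_dvd (by omega) (Int.natCast_dvd_natCast.mp h1)
    omega
  · rcases hPp.dvd_or_dvd h1 with h2 | h2
    · have h3 := (hP.dvd_factorial).mp (Int.natCast_dvd_natCast.mp h2)
      have h4 : P ≤ D := h3.trans hgD
      have h5 : P ≤ D.factorial := h4.trans (Nat.self_le_factorial D)
      have h6 : (P : ℝ) ≤ D.factorial := by exact_mod_cast h5
      rw [← hMdef] at h6
      linarith
    · have h3 : ((F.coeff k : ℤ) : ZMod P) = 0 := (ZMod.intCast_zmod_eq_zero_iff_dvd _ _).mpr h2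
      have h4 : g.coeff k = ((F.coeff k : ℤ) : ZMod P) := by
        rw [← hF, Polynomial.coeff_map]
        rfl
      rw [h3] at h4
      have h5 : g = 0 := by
        rw [← Polynomial.leadingCoeff_eq_zero]
        exact h4
      rw [hk, h5, Polynomial.natDegree_zero] at hdg
      omega

end Pool.Agent.D0H59.RG
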